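import Pool.Agent.Q293.MDM.Upper

/-!
# Two-colour Ramsey numbers for degree-monotone paths: `M_2(m) = (m - 1)^2 + 1` for all `m ≥ 7`

The definitions `deg`, `colourGraph`, `IsDMPath`, `Forced` are in `Pool.Agent.Q293.MDM`:
`Forced n m` says that every colouring of the edges of `K_n` (a function on the unordered pairs of
elements of `Fin n`) with two colours has a monochromatic degree-monotone path of order `m`, the degrees
being those in the graph of all edges of that colour.

Outline. A graph `G` with `N ^ 2` vertices is good if neither `G` nor its complement has a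
degree-monotone path of order `N + 1` and its degrees are between `1` and `N ^ 2 - N - 1`. If `G` is good
for `N`, then the disjoint union of `K_{N+1}` and of the join of `G` with `N` independent vertices is good
for `N + 1`: the new independent vertices have larger degree than the old ones, so in the graph they can
only be the last vertex of a degree-monotone path, and the same holds for the vertices of `K_{N+1}` in
the complement. A good graph for `N = 6`, with 36 vertices, was found by a SAT solver; it is checked by
the kernel. The upper bound is the known argument with longest paths that end in a vertex.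
-/

set_option autoImplicit false

namespace Pool.Agent.Results.MP_a6acde_co.ExactValue

open Pool.Agent.Q293.MDM

/-- `M_2(m)`: the least `M` such that for every `n ≥ M` every colouring of the edges of `K_n` with two
colours has a monochromatic degree-monotone path of order `m`. -/
noncomputable def M2 (m : ℕ) : ℕ := sInf {M | ∀ n, M ≤ n → Forced n m}

/-- For all `m ≥ 7` the number `M_2(m)` is `(m - 1)^2 + 1`; hence it is not true that for every
constant `C` one has `M_2(m) ≤ (m - 1)^2 - C` for all large `m`. -/
theorem result :
    (∀ m, 7 ≤ m → IsLeast {M | ∀ n, M ≤ n → Forced n m} ((m - 1) ^ 2 + 1)) ∧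
    (∀ m, 7 ≤ m → M2 m = (m - 1) ^ 2 + 1) ∧
    ¬ (∀ C : ℕ, ∃ m₀ : ℕ, ∀ m, m₀ ≤ m → M2 m + C ≤ (m - 1) ^ 2) := by
  have h1 : ∀ m, 7 ≤ m → IsLeast {M | ∀ n, M ≤ n → Forced n m} ((m - 1) ^ 2 + 1) := by
    intro m hm
    constructor
    · intro n hn
      exact forced_of_lt (by omega) (by omega)
    · intro M hM
      by_contra hlt
      have h2 := not_forced (N := m - 1) (by omega)
      rw [Nat.sub_add_cancel (by omega : 1 ≤ m)] at h2
      exact h2 (hM _ (by omega))
  have h2 : ∀ m, 7 ≤ m → M2 m = (m - 1) ^ 2 + 1 := fun m hm => (h1 m hm).csInf_eq
  refine ⟨h1, h2, ?_⟩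
  intro h
  obtain ⟨m₀, hm₀⟩ := h 0
  have h3 := hm₀ (max m₀ 7) (le_max_left _ _)
  rw [h2 _ (le_max_right _ _)] at h3
  omega

end Pool.Agent.Results.MP_a6acde_co.ExactValue
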